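import Mathlib

open Polynomial

namespace H55.TT

/-- The Hessian of `G` as a binary form of degree `natDegree G`. -/
noncomputable def hess {K : Type*} [Field K] (G : K[X]) : K[X] :=
  C (G.natDegree : K) * G * derivative (derivative G)
    - C ((G.natDegree : K) - 1) * derivative G ^ 2

/-- The Jacobian covariant of `G` and its Hessian. -/
noncomputable def jac {K : Type*} [Field K] (G : K[X]) : K[X] :=
  C (G.natDegree : K) * derivative (hess G) * G
    - C (2 * (G.natDegree : K) - 4) * hess G * derivative G

section nonconst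

variable {K : Type*} [Field K] [CharZero K]

omit [CharZero K] in
lemma isCoprime_C_left {c : K} {G : K[X]} (hc : c ≠ 0) : IsCoprime (C c) G := by
  refine ⟨C c⁻¹, 0, ?_⟩
  rw [← C_mul, inv_mul_cancel₀ hc]
  simp

lemma hess_coprime {G : K[X]} (hG : G.Separable) (hN : 2 ≤ G.natDegree) :
    IsCoprime (hess G) G := by
  have h1 : IsCoprime G (derivative G) := hG
  have h2 : IsCoprime G (derivative G ^ 2) := h1.pow_right
  have hc : (-((G.natDegree : K) - 1)) ≠ 0 := by
    have : ((G.natDegree : K)) ≠ 1 := by
      intro h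
      have : G.natDegree = 1 := by exact_mod_cast h
      omega
    intro h
    apply this
    linear_combination -h
  have h3 : IsCoprime G (C (-((G.natDegree : K) - 1)) * derivative G ^ 2) := by
    refine IsCoprime.mul_right ?_ h2
    exact (isCoprime_C_left hc).symm
  have h4 : hess G = C (-((G.natDegree : K) - 1)) * derivative G ^ 2
      + G * (C (G.natDegree : K) * derivative (derivative G)) := by
    unfold hess
    rw [C_neg]
    ring
  rw [h4]
  exact (IsCoprime.add_mul_left_right h3 _).symm

lemma hess_ne_zero {G : K[X]} (hG : G.Separable) (hN : 2 ≤ G.natDegree) : hess G ≠ 0 := by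
  intro h
  have h1 := hess_coprime hG hN
  rw [h] at h1
  have h2 : IsUnit G := isCoprime_zero_left.1 h1
  have := natDegree_eq_zero_of_isUnit h2
  omega

omit [CharZero K] in
lemma pow_dvd_of_sq {P W : K[X]} {m : ℕ} (h : (P ^ m) ^ 2 ∣ W ^ 2) : P ^ m ∣ W := by
  exact (UniqueFactorizationMonoid.pow_dvd_pow_iff_dvd two_ne_zero).1 h

/-- `W ^ 2 / H ^ 3` is not constant. -/
lemma jac_sq_ne {G : K[X]} (hG : G.Separable) (hN : 3 ≤ G.natDegree) (c : K) :
    jac G ^ 2 ≠ C c * hess G ^ 3 := by
  intro hW
  have hcop := hess_coprime hG (by omega : 2 ≤ G.natDegree)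
  have hH0 := hess_ne_zero hG (by omega : 2 ≤ G.natDegree)
  have hNK : (G.natDegree : K) ≠ 0 := by
    have : G.natDegree ≠ 0 := by omega
    exact_mod_cast this
  by_cases hu : IsUnit (hess G)
  · -- constant Hessian
    obtain ⟨e, he, heH⟩ := Polynomial.isUnit_iff.1 hu
    have hder : derivative (hess G) = 0 := by
      rw [← heH]; simp
    have hM : (2 * (G.natDegree : K) - 4) ≠ 0 := by
      intro h
      have h1 : ((2 * G.natDegree : ℕ) : K) = ((4 : ℕ) : K) := by
        push_cast
        linear_combination h
      have : 2 * G.natDegree = 4 := by exact_mod_cast h1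
      omega
    have hJ : jac G = C (-(2 * (G.natDegree : K) - 4) * e) * derivative G := by
      unfold jac
      rw [hder, ← heH]
      simp only [C_mul, C_neg]
      ring
    have he0 : e ≠ 0 := he.ne_zero
    have hd : (derivative G).natDegree = G.natDegree - 1 :=
      natDegree_derivative G
    have h1 : (jac G ^ 2).natDegree = 2 * (G.natDegree - 1) := by
      rw [natDegree_pow, hJ, natDegree_C_mul (mul_ne_zero (neg_ne_zero.2 hM) he0), hd]
    have h2 : (C c * hess G ^ 3).natDegree = 0 := by
      rw [← heH, ← C_pow, ← C_mul, natDegree_C]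
    rw [hW, h2] at h1
    omega
  · obtain ⟨P, hP, hPH⟩ := WfDvdMonoid.exists_irreducible_factor hu hH0
    have hPp : Prime P := hP.prime
    have hPG : ¬ P ∣ G := by
      intro h
      exact hP.not_isUnit (hcop.isUnit_of_dvd' hPH h)
    have hPsep : P.Separable := hP.separable
    have hPd : ¬ P ∣ derivative P := by
      intro h
      have : IsCoprime P (derivative P) := hPsep
      exact hP.not_isUnit (this.isUnit_of_dvd' dvd_rfl h)
    have key : ∀ m : ℕ, P ^ (m + 1) ∣ hess G := by
      intro m
      induction m with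
      | zero => simpa using hPH
      | succ m ih =>
        obtain ⟨Q, hQ⟩ := ih
        have h1 : (P ^ (m + 1)) ^ 2 ∣ jac G ^ 2 := by
          rw [hW, hQ]
          exact ⟨C c * P ^ (m + 1) * Q ^ 3, by ring⟩
        have h2 : P ^ (m + 1) ∣ jac G := pow_dvd_of_sq h1
        have h3 : P ^ (m + 1) ∣ C (G.natDegree : K) * derivative (hess G) * G := by
          have h4 : C (G.natDegree : K) * derivative (hess G) * G
              = jac G + C (2 * (G.natDegree : K) - 4) * hess G * derivative G := by
            unfold jac
            ring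
          rw [h4]
          refine dvd_add h2 ?_
          rw [hQ]
          exact ⟨C (2 * (G.natDegree : K) - 4) * Q * derivative G, by ring⟩
        have h5 : P ^ (m + 1) ∣ C (G.natDegree : K) * derivative (hess G) := by
          exact hPp.pow_dvd_of_dvd_mul_right _ hPG h3
        have h6 : P ^ (m + 1) ∣ derivative (hess G) := by
          have : derivative (hess G) = C ((G.natDegree : K))⁻¹ *
              (C (G.natDegree : K) * derivative (hess G)) := by
            rw [← mul_assoc, ← C_mul, inv_mul_cancel₀ hNK, C_1, one_mul]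
          rw [this]
          exact dvd_mul_of_dvd_right h5 _
        rw [hQ, derivative_mul, derivative_pow] at h6
        have h7 : P ^ (m + 1) ∣ C ((m + 1 : ℕ) : K) * P ^ m * derivative P * Q := by
          have := (dvd_add_left (a := P ^ (m + 1))
            (b := C ((m + 1 : ℕ) : K) * P ^ (m + 1 - 1) * derivative P * Q)
            (c := P ^ (m + 1) * derivative Q) (dvd_mul_right _ _)).1 h6
          simpa using this
        have h8 : P ∣ C ((m + 1 : ℕ) : K) * (derivative P * Q) := by
          have h9 : P ^ m * P ∣ P ^ m * (C ((m + 1 : ℕ) : K) * (derivative P * Q)) := by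
            rw [← pow_succ]
            convert h7 using 1
            ring
          exact (mul_dvd_mul_iff_left (pow_ne_zero _ hP.ne_zero)).1 h9
        have hm : ((m + 1 : ℕ) : K) ≠ 0 := by exact_mod_cast Nat.succ_ne_zero m
        have h10 : P ∣ derivative P * Q := by
          rcases hPp.dvd_or_dvd h8 with h | h
          · exfalso
            have : IsUnit P := isUnit_of_dvd_unit h (isUnit_C.2 (isUnit_iff_ne_zero.2 hm))
            exact hP.not_isUnit this
          · exact h
        have h11 : P ∣ Q := (hPp.dvd_or_dvd h10).resolve_left hPd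
        obtain ⟨R, hR⟩ := h11
        exact ⟨R, by rw [hQ, hR]; ring⟩
    -- all powers divide: contradiction
    have hPdeg : 1 ≤ P.natDegree := by
      have := hP.natDegree_pos
      omega
    have h1 := natDegree_le_of_dvd (key (hess G).natDegree) hH0
    rw [natDegree_pow] at h1
    nlinarith

end nonconst

section action

variable {K : Type*} [Field K]

/-- The twisted substitution `sum s(F_i) A^i B^(n-i)`. -/
noncomputable def act (s : K →+* K) (A B : K[X]) (n : ℕ) (F : K[X]) : K[X] :=
  ∑ i ∈ Finset.range (n + 1), C (s (F.coeff i)) * A ^ i * B ^ (n - i)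

lemma act_eval {L : Type*} [Field L] [Algebra K L] (phi : L →+* L) (s : K →+* K)
    (hs : ∀ a, phi (algebraMap K L a) = algebraMap K L (s a)) (T : L) (A B : K[X])
    (hAB : phi T * aeval T B = aeval T A) (n : ℕ) (F : K[X]) (hF : F.natDegree ≤ n) :
    aeval T (act s A B n F) = phi (aeval T F) * (aeval T B) ^ n := by
  unfold act
  rw [map_sum, aeval_eq_sum_range' (Nat.lt_succ_of_le hF), map_sum, Finset.sum_mul]
  refine Finset.sum_congr rfl ?_
  intro i hi
  have hi' : i ≤ n := Nat.lt_succ_iff.1 (Finset.mem_range.1 hi)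
  rw [map_mul, map_mul, aeval_C, map_pow, map_pow, Algebra.smul_def, map_mul, map_pow, hs,
    ← hAB, mul_pow]
  have : (aeval T B : L) ^ n = (aeval T B) ^ i * (aeval T B) ^ (n - i) := by
    rw [← pow_add]; congr 1; omega
  rw [this]
  ring

lemma act_deriv (s : K →+* K) (A B : K[X]) (a c del : K) (hA : derivative A = C a)
    (hB : derivative B = C c) (hd : C a * B - C c * A = C del) (n : ℕ) (F : K[X]) :
    C del * act s A B n (derivative F) =
      B * derivative (act s A B (n + 1) F)
        - C (((n + 1 : ℕ) : K) * c) * act s A B (n + 1) F := by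
  unfold act
  rw [derivative_sum, Finset.mul_sum, Finset.mul_sum, Finset.mul_sum,
    ← Finset.sum_sub_distrib, Finset.sum_range_succ' _ (n + 1)]
  have h0 : B * derivative (C (s (F.coeff 0)) * A ^ 0 * B ^ (n + 1 - 0)) -
      C (((n + 1 : ℕ) : K) * c) * (C (s (F.coeff 0)) * A ^ 0 * B ^ (n + 1 - 0)) = 0 := by
    simp only [pow_zero, mul_one, Nat.sub_zero, derivative_mul, derivative_C, zero_mul, zero_add,
      derivative_pow, hB, Nat.add_sub_cancel]
    rw [C_mul]
    ring
  rw [h0, add_zero]
  refine Finset.sum_congr rfl ?_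
  intro j hj
  have hj' : j ≤ n := Nat.lt_succ_iff.1 (Finset.mem_range.1 hj)
  obtain ⟨m, rfl⟩ := Nat.exists_eq_add_of_le hj'
  have e1 : j + m + 1 - (j + 1) = m := by omega
  have e2 : j + m - j = m := by omega
  rw [e1, e2, coeff_derivative, ← hd]
  simp only [derivative_mul, derivative_C, zero_mul, zero_add, derivative_pow, hA, hB,
    Nat.add_sub_cancel, map_mul, map_add, map_natCast, map_one]
  rcases m with _ | m
  · simp only [pow_zero, Nat.cast_zero, zero_mul, mul_zero, add_zero, mul_one]
    push_cast
    ring
  · push_cast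
    ring

end action

section invariant

variable {K L : Type*} [Field K] [CharZero K] [Field L] [Algebra K L]

omit [CharZero K] in
lemma poly_eq_of_aeval {T : L} (hT : Transcendental K T) {F F' : K[X]}
    (h : aeval T F = aeval T F') : F = F' := by
  have h1 : aeval T (F - F') = 0 := by rw [map_sub, h, sub_self]
  have h2 : F - F' = 0 := by
    by_contra h3
    exact hT ⟨F - F', h3, h1⟩
  exact sub_eq_zero.1 h2

theorem hess_invariant (phi : L →+* L) (s : K →+* K)
    (hs : ∀ a, phi (algebraMap K L a) = algebraMap K L (s a)) (T : L) (hT : Transcendental K T)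
    (a b c d : K) (hdet : a * d - b * c ≠ 0)
    (hphiT : phi T * (algebraMap K L c * T + algebraMap K L d)
      = algebraMap K L a * T + algebraMap K L b)
    (G : K[X]) (hG : G.Separable) (hN : 3 ≤ G.natDegree) (lam : K)
    (hG2 : phi (aeval T G) * (algebraMap K L c * T + algebraMap K L d) ^ G.natDegree
      = algebraMap K L lam * aeval T G) :
    ∃ y : L, phi y = y ∧ y ∉ Set.range (algebraMap K L) := by
  obtain ⟨r, hr⟩ : ∃ r, G.natDegree = r + 3 := ⟨G.natDegree - 3, by omega⟩
  set A : K[X] := C a * X + C b with hAdef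
  set B : K[X] := C c * X + C d with hBdef
  have hAd : derivative A = C a := by simp [hAdef]
  have hBd : derivative B = C c := by simp [hBdef]
  have hdel : C a * B - C c * A = C (a * d - b * c) := by
    rw [hAdef, hBdef, C_sub, C_mul, C_mul]; ring
  have hAe : aeval T A = algebraMap K L a * T + algebraMap K L b := by simp [hAdef]
  have hBe : aeval T B = algebraMap K L c * T + algebraMap K L d := by simp [hBdef]
  have hAB : phi T * aeval T B = aeval T A := by rw [hAe, hBe, hphiT]
  have hB0 : B ≠ 0 := by
    intro h
    have hc : c = 0 := by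
      have := congrArg (fun F : K[X] => F.coeff 1) h
      simpa [hBdef] using this
    have hd0 : d = 0 := by
      have := congrArg (fun F : K[X] => F.coeff 0) h
      simpa [hBdef] using this
    apply hdet
    rw [hc, hd0]; ring
  have hinj : ∀ F : K[X], F ≠ 0 → aeval T F ≠ 0 := by
    intro F hF h
    exact hT ⟨F, hF, h⟩
  set del : K := a * d - b * c with hdeldef
  -- the action on `G`, `G'`, `G''`
  have e0 : act s A B (r + 3) G = C lam * G := by
    apply poly_eq_of_aeval hT
    rw [act_eval phi s hs T A B hAB _ _ (by omega), hBe, ← hr, hG2, map_mul, aeval_C]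
  have e1 : C del * act s A B (r + 2) (derivative G) =
      B * (C lam * derivative G) - C (((r + 3 : ℕ) : K) * c) * (C lam * G) := by
    rw [act_deriv s A B a c del hAd hBd hdel, e0, derivative_C_mul]
  have e2 : C del * (C del * act s A B (r + 1) (derivative (derivative G))) =
      C lam * (B ^ 2 * derivative (derivative G)
        - C (2 * ((r + 2 : ℕ) : K) * c) * B * derivative G
        + C (((r + 3 : ℕ) : K) * ((r + 2 : ℕ) : K) * c ^ 2) * G) := by
    rw [act_deriv s A B a c del hAd hBd hdel]
    have h1 : C del * derivative (act s A B (r + 2) (derivative G)) =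
        derivative (B * (C lam * derivative G) - C (((r + 3 : ℕ) : K) * c) * (C lam * G)) := by
      rw [← e1, derivative_C_mul]
    have h2 : C del * (B * derivative (act s A B (r + 1 + 1) (derivative G)) -
        C (((r + 1 + 1 : ℕ) : K) * c) * act s A B (r + 1 + 1) (derivative G)) =
        B * (C del * derivative (act s A B (r + 2) (derivative G))) -
        C (((r + 1 + 1 : ℕ) : K) * c) * (C del * act s A B (r + 2) (derivative G)) := by ring
    rw [h2, h1, e1]
    simp only [derivative_sub, derivative_mul, derivative_C, zero_mul, zero_add, hBd]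
    push_cast
    simp only [map_mul, map_add, map_natCast, map_one, map_pow, map_ofNat]
    ring
  -- the values
  set u : L := aeval T B with hu
  have hu0 : u ≠ 0 := hinj B hB0
  set D : L := algebraMap K L del with hD
  have hD0 : D ≠ 0 := by
    rw [hD]
    intro h
    exact hdet ((algebraMap K L).injective (by rw [h, map_zero]))
  set l : L := algebraMap K L lam with hl
  set cc : L := algebraMap K L c with hcc
  set g0 : L := aeval T G with hg0
  set g1 : L := aeval T (derivative G) with hg1
  set g2 : L := aeval T (derivative (derivative G)) with hg2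
  have hNcast : ((G.natDegree : K)) = (r : K) + 3 := by rw [hr]; push_cast; ring
  have hd1 : (derivative G).natDegree ≤ r + 2 := by
    rw [natDegree_derivative]; omega
  have hd2 : (derivative (derivative G)).natDegree ≤ r + 1 := by
    rw [natDegree_derivative, natDegree_derivative]; omega
  have v0 : phi g0 * u ^ (r + 3) = l * g0 := by
    have := congrArg (aeval T) e0
    rwa [act_eval phi s hs T A B hAB _ _ (by omega), map_mul, aeval_C] at this
  have v1 : D * (phi g1 * u ^ (r + 2)) = u * (l * g1) - (((r : L) + 3) * cc) * (l * g0) := by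
    have := congrArg (aeval T) e1
    rw [map_mul, aeval_C, act_eval phi s hs T A B hAB _ _ hd1] at this
    rw [this]
    simp only [map_sub, map_mul, aeval_C, map_natCast]
    push_cast
    ring
  have v2 : D * (D * (phi g2 * u ^ (r + 1))) = l * (u ^ 2 * g2 - (2 * ((r : L) + 2) * cc) * u * g1
      + (((r : L) + 3) * ((r : L) + 2) * cc ^ 2) * g0) := by
    have := congrArg (aeval T) e2
    rw [map_mul, map_mul, aeval_C, act_eval phi s hs T A B hAB _ _ hd2] at this
    rw [this]
    simp only [map_sub, map_add, map_mul, map_pow, aeval_C, map_natCast, map_ofNat]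
    push_cast
    ring
  have hHe : aeval T (hess G) = ((r : L) + 3) * g0 * g2 - ((r : L) + 2) * g1 ^ 2 := by
    unfold hess
    rw [hNcast]
    simp only [map_sub, map_add, map_mul, map_pow, map_natCast, map_ofNat, map_one]
    ring
  have hphiH : phi (aeval T (hess G)) = ((r : L) + 3) * phi g0 * phi g2
      - ((r : L) + 2) * phi g1 ^ 2 := by
    rw [hHe]
    simp only [map_sub, map_add, map_mul, map_pow, map_natCast, map_ofNat]
  set h0 : L := aeval T (hess G) with hh0
  set h1 : L := aeval T (derivative (hess G)) with hh1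
  have w0 : D ^ 2 * (phi h0 * u ^ (2 * r + 4)) = l ^ 2 * (u ^ 2 * h0) := by
    have e : D ^ 2 * (phi h0 * u ^ (2 * r + 4)) =
        ((r : L) + 3) * (phi g0 * u ^ (r + 3)) * (D * (D * (phi g2 * u ^ (r + 1))))
        - ((r : L) + 2) * (D * (phi g1 * u ^ (r + 2))) ^ 2 := by
      rw [hphiH]
      ring
    rw [e, v0, v1, v2, hHe]
    ring
  have hHdeg : (hess G).natDegree ≤ 2 * r + 4 := by
    unfold hess
    refine (natDegree_sub_le _ _).trans (max_le ?_ ?_)
    · refine (natDegree_mul_le).trans ?_
      have := (natDegree_mul_le (p := C (G.natDegree : K)) (q := G))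
      rw [natDegree_C] at this
      omega
    · refine (natDegree_mul_le).trans ?_
      rw [natDegree_C, natDegree_pow]
      omega
  have E0 : C (del ^ 2) * act s A B (2 * r + 4) (hess G) = C (lam ^ 2) * (B ^ 2 * hess G) := by
    apply poly_eq_of_aeval hT
    rw [map_mul, aeval_C, act_eval phi s hs T A B hAB _ _ hHdeg, map_mul, map_mul, aeval_C,
      map_pow, map_pow, map_pow]
    exact w0
  have E1 : C (del ^ 3) * act s A B (2 * r + 3) (derivative (hess G)) =
      C (lam ^ 2) * B ^ 2 * (B * derivative (hess G) - C ((2 * (r : K) + 2) * c) * hess G) := by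
    have h1 := act_deriv s A B a c del hAd hBd hdel (2 * r + 3) (hess G)
    have h2 : C (del ^ 2) * derivative (act s A B (2 * r + 4) (hess G)) =
        derivative (C (lam ^ 2) * (B ^ 2 * hess G)) := by
      rw [← E0, derivative_C_mul]
    have h3 : C (del ^ 3) * act s A B (2 * r + 3) (derivative (hess G)) =
        C (del ^ 2) * (C del * act s A B (2 * r + 3) (derivative (hess G))) := by
      simp only [map_pow]; ring
    have h4 : C (del ^ 2) * (B * derivative (act s A B (2 * r + 3 + 1) (hess G)) -
        C (((2 * r + 3 + 1 : ℕ) : K) * c) * act s A B (2 * r + 3 + 1) (hess G)) =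
        B * (C (del ^ 2) * derivative (act s A B (2 * r + 4) (hess G))) -
        C (((2 * r + 3 + 1 : ℕ) : K) * c) * (C (del ^ 2) * act s A B (2 * r + 4) (hess G)) := by
      ring
    rw [h3, h1, h4, h2, E0]
    simp only [derivative_mul, derivative_C, zero_mul, zero_add, derivative_pow, hBd]
    push_cast
    simp only [map_mul, map_add, map_natCast, map_one, map_pow, map_ofNat]
    ring
  have hH'deg : (derivative (hess G)).natDegree ≤ 2 * r + 3 := by
    rw [natDegree_derivative]; omega
  have w1 : D ^ 3 * (phi h1 * u ^ (2 * r + 3)) =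
      l ^ 2 * u ^ 2 * (u * h1 - ((2 * (r : L) + 2) * cc) * h0) := by
    have := congrArg (aeval T) E1
    rw [map_mul, aeval_C, act_eval phi s hs T A B hAB _ _ hH'deg, map_pow] at this
    rw [this]
    simp only [map_sub, map_add, map_mul, map_pow, aeval_C, map_natCast, map_ofNat]
    rfl
  have hWe : aeval T (jac G) = ((r : L) + 3) * h1 * g0 - (2 * (r : L) + 2) * h0 * g1 := by
    unfold jac
    rw [hNcast]
    simp only [map_sub, map_add, map_mul, map_natCast, map_ofNat]
    ring
  have hphiW : phi (aeval T (jac G)) = ((r : L) + 3) * phi h1 * phi g0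
      - (2 * (r : L) + 2) * phi h0 * phi g1 := by
    rw [hWe]
    simp only [map_sub, map_add, map_mul, map_natCast, map_ofNat]
  set w : L := aeval T (jac G) with hw
  have w2 : D ^ 3 * (phi w * u ^ (3 * r + 6)) = l ^ 3 * (u ^ 3 * w) := by
    have e : D ^ 3 * (phi w * u ^ (3 * r + 6)) =
        ((r : L) + 3) * (D ^ 3 * (phi h1 * u ^ (2 * r + 3))) * (phi g0 * u ^ (r + 3))
        - (2 * (r : L) + 2) * (D ^ 2 * (phi h0 * u ^ (2 * r + 4))) *
          (D * (phi g1 * u ^ (r + 2))) := by
      rw [hphiW]
      ring
    rw [e, v0, v1, w0, w1, hWe]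
    ring
  -- the invariant
  have hH0 : hess G ≠ 0 := hess_ne_zero hG (by omega)
  have hh00 : h0 ≠ 0 := hinj _ hH0
  have hphih0 : phi h0 ≠ 0 := (_root_.map_ne_zero phi).2 hh00
  refine ⟨w ^ 2 / h0 ^ 3, ?_, ?_⟩
  · rw [map_div₀, map_pow, map_pow, div_eq_div_iff (pow_ne_zero _ hphih0) (pow_ne_zero _ hh00)]
    have hne : D ^ 6 * u ^ (6 * r + 12) ≠ 0 := mul_ne_zero (pow_ne_zero _ hD0)
      (pow_ne_zero _ hu0)
    apply mul_left_cancel₀ hne
    have e1 : D ^ 6 * u ^ (6 * r + 12) * (phi w ^ 2 * h0 ^ 3) =
        (D ^ 3 * (phi w * u ^ (3 * r + 6))) ^ 2 * h0 ^ 3 := by ring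
    have e2 : D ^ 6 * u ^ (6 * r + 12) * (w ^ 2 * phi h0 ^ 3) =
        w ^ 2 * (D ^ 2 * (phi h0 * u ^ (2 * r + 4))) ^ 3 := by ring
    rw [e1, e2, w2, w0]
    ring
  · rintro ⟨e, he⟩
    apply jac_sq_ne hG hN e
    apply poly_eq_of_aeval hT
    rw [map_pow, map_mul, map_pow, aeval_C, he, div_mul_cancel₀ _ (pow_ne_zero _ hh00)]

end invariant

end H55.TT
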